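import Pool.Agent.V11246.RowR

/-!
# A compact Hausdorff space with a cuf base that is not weakly Loeb

In a symmetric extension there are finite sets `P n k` with `k + 1` elements such that for every
`n` the sets `P n k` have a common choice function, but there is no function that assigns to
every `n` a nonempty finite set of such functions. The space consists of the empty set and the
choice functions (as subsets of the union of the sets `P n k`) with the topology of the Cantor
cube; it is the one point compactification of the sum of the products of the sequences `P n`.
-/

namespace Pool.Agent.Results.MP_d8a1a0_gt.NotWeaklyLoeb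

open FirstOrder FirstOrder.Language
open Pool.Agent.Helper672.Plain (LSet)
open Pool.Agent.H635Amen (ZF)
open Pool.Agent.H310Top

universe u

/-- For every model of ZF there is a model of ZF with a compact Hausdorff space that has a cuf base
and is not weakly Loeb. -/
theorem result (M : Type u) [LSet.Structure M] (h : ZF M) :
    ∃ (N : Type u) (_ : LSet.Structure N), ZF N ∧ ∃ x t : N, IsTopology t x ∧ IsCompact t x ∧
      IsHausdorff t x ∧ (∃ b, IsCuf b ∧ IsBase b t) ∧ ¬ IsWeaklyLoeb t x := by
  obtain ⟨N, hL, hZ, h1⟩ := Pool.Agent.Helper672.ZFA.V246G.exists_row M h
  exact ⟨N, hL, hZ, h1⟩

end Pool.Agent.Results.MP_d8a1a0_gt.NotWeaklyLoeb
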